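import Pool.Agent.Helper335.Clique.Embed

/-! # Blocks of small rank have large complete graph minors -/

namespace Pool.Agent.Helper335.Clique

open Set Module Submodule Pool.Agent.Helper236 Pool.Agent.Helper335.ModHyp

variable {α : Type*} {F V : Type*} [Field F] [AddCommGroup V] [Module F V]

/-- `M` has a minor isomorphic to the cycle matroid of the complete graph on `m` vertices. -/
def HasCliqueMinor (m : ℕ) (M : Matroid α) : Prop :=
  ∃ (K : Matroid (Sym2 (Fin m))) (N : Matroid α),
    IsCompleteGraphMatroid m K ∧ N.IsMinor M ∧ Iso K N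

theorem extend_map [FiniteDimensional F V] (V0 W : Submodule F V) {k : ℕ}
    (hk : finrank F V0 ≤ k + finrank F W) (hW : W ≤ V0) :
    ∃ f : V →ₗ[F] (Fin k → F), ∀ x ∈ V0, f x = 0 → x ∈ W := by
  let W' : Submodule F V0 := W.comap V0.subtype
  have h1 : finrank F W' = finrank F W :=
    LinearEquiv.finrank_eq (Submodule.submoduleOfEquivOfLe hW)
  have h2 : finrank F (V0 ⧸ W') + finrank F W' = finrank F V0 :=
    Submodule.finrank_quotient_add_finrank W'
  have h3 : finrank F (V0 ⧸ W') ≤ finrank F (Fin k → F) := by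
    rw [finrank_fin_fun]
    omega
  obtain ⟨g, hg⟩ : ∃ g : (V0 ⧸ W') →ₗ[F] (Fin k → F), Function.Injective g := by
    rw [finrank_fin_fun] at h3
    let e : (V0 ⧸ W') ≃ₗ[F] (Fin (finrank F (V0 ⧸ W')) → F) :=
      LinearEquiv.ofFinrankEq _ _ (by rw [finrank_fin_fun])
    let g : (Fin (finrank F (V0 ⧸ W')) → F) →ₗ[F] (Fin k → F) :=
      { toFun := fun x i => if hi : i.1 < finrank F (V0 ⧸ W') then x ⟨i.1, hi⟩ else 0
        map_add' := by
          intro x y
          ext i
          by_cases hi : i.1 < finrank F (V0 ⧸ W') <;> simp [hi]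
        map_smul' := by
          intro c x
          ext i
          by_cases hi : i.1 < finrank F (V0 ⧸ W') <;> simp [hi] }
    refine ⟨g.comp e.toLinearMap, ?_⟩
    have hg : Function.Injective g := by
      intro x y hxy
      funext i
      have := congrFun hxy ⟨i.1, lt_of_lt_of_le i.2 h3⟩
      simpa [g] using this
    exact hg.comp e.injective
  obtain ⟨f, hf⟩ := LinearMap.exists_extend (g.comp W'.mkQ)
  refine ⟨f, fun x hx h0 => ?_⟩
  have h4 : f x = g (W'.mkQ ⟨x, hx⟩) := by
    have := LinearMap.congr_fun hf ⟨x, hx⟩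
    simpa using this
  rw [h4] at h0
  have h5 : W'.mkQ ⟨x, hx⟩ = 0 := by
    apply hg
    rw [h0, map_zero]
  rw [Submodule.mkQ_apply, Submodule.Quotient.mk_eq_zero] at h5
  exact h5

theorem chain_space {S : Set V} (hS : ∀ x ∈ S, x ≠ 0) [FiniteDimensional F V]
    (X : ℕ → Submodule F V) (hX : ∀ i, X i ≤ X (i + 1)) (t : ℕ)
    (hstep : ∀ i < t, ∃ w ∈ X (i + 1), w ∉ X i ∧ ∀ e ∈ S, ∀ c : F, c ≠ 0 → e - c • w ∉ X i) :
    ∃ W ≤ X t, t ≤ finrank F W ∧ ∀ x ∈ S, x ∉ W := by
  induction t with
  | zero =>
    refine ⟨⊥, bot_le, by simp, fun x hx h0 => hS x hx (by simpa using h0)⟩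
  | succ i ih =>
    obtain ⟨W, hW1, hW2, hW3⟩ := ih (fun l hl => hstep l (by omega))
    obtain ⟨w, hw, hwX, hwS⟩ := hstep i (by omega)
    have hwW : w ∉ W := fun hmem => hwX (hW1 hmem)
    refine ⟨W ⊔ span F {w}, ?_, ?_, ?_⟩
    · apply sup_le (hW1.trans (hX i))
      rw [span_singleton_le_iff_mem]
      exact hw
    · have hlt : W < W ⊔ span F {w} := by
        refine lt_of_le_of_ne le_sup_left fun heq => hwW ?_
        rw [heq]
        exact mem_sup_right (mem_span_singleton_self w)
      have := Submodule.finrank_lt_finrank_of_lt hlt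
      omega
    · intro x hx hmem
      obtain ⟨y, hy, z, hz, hyz⟩ := mem_sup.1 hmem
      obtain ⟨c, rfl⟩ := mem_span_singleton.1 hz
      by_cases hc : c = 0
      · rw [hc, zero_smul, add_zero] at hyz
        exact hW3 x hx (hyz ▸ hy)
      · apply hwS x hx c hc
        rw [← hyz, add_sub_cancel_right]
        exact hW1 hy

theorem restrict_isMinor {N : Matroid α} {Y : Set α} (hY : Y ⊆ N.E) :
    (N.restrict Y).IsMinor N := by
  refine ⟨∅, N.E \ Y, ?_⟩
  rw [Matroid.contract_empty, Matroid.delete_eq_restrict, Set.sdiff_sdiff_cancel_left hY]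

/-- A full step in a chain gives a complete graph minor. -/
theorem step_minor {M : Matroid α} {v : α → V} (h : Rep F M v) {r j p : ℕ} (hj : 0 < j)
    (b : Fin r → α)
    (hbE : ∀ l, b l ∈ M.E) (hb : LinearIndependent F (fun l => v (b l))) (hp : p + j ≤ r)
    (hfull : ∀ w ∈ span F ((fun l => v (b l)) '' {l | l.val < p + j}),
      w ∉ span F ((fun l => v (b l)) '' {l | l.val < p}) →
      ∃ e ∈ M.E, ∃ c : F, c ≠ 0 ∧ v e - c • w ∈ span F ((fun l => v (b l)) '' {l | l.val < p})) :
    HasCliqueMinor (j + 1) M := by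
  classical
  set P : Set (Fin r) := {l | l.val < p} with hP
  set A : Set α := b '' P with hA
  have hAE : A ⊆ M.E := by
    rintro _ ⟨l, _, rfl⟩
    exact hbE l
  have hX : span F (v '' A) = span F ((fun l => v (b l)) '' P) := by
    rw [hA, image_image]
  set X := span F (v '' A) with hXdef
  rw [← hX] at hfull
  -- the points
  let idx : Fin j → Fin r := fun l => ⟨p + l.val, by omega⟩
  let g : Fin (j + 1) → V := Fin.cons 0 (fun l => v (b (idx l)))
  let a : Fin (j + 1) → (V ⧸ X) := fun l => X.mkQ (g l)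
  have hind : LinearIndependent F (fun l : Fin j => X.mkQ (v (b (idx l)))) := by
    set Q : Set (Fin r) := Set.range idx with hQ
    have hdisj : Disjoint P Q := by
      rw [Set.disjoint_left]
      rintro _ hl ⟨l, rfl⟩
      have : p + l.val < p := hl
      omega
    have h1 : LinearIndepOn F (fun l => v (b l)) (P ∪ Q) := hb.linearIndepOn _
    have h2 := ((linearIndepOn_union_iff_quotient hdisj).1 h1).2
    rw [← hX] at h2
    have hinj : Function.Injective idx := by
      intro x y hxy
      have : p + x.val = p + y.val := congrArg Fin.val hxy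
      exact Fin.ext (by omega)
    have h3 := h2.comp (fun l : Fin j => (⟨idx l, mem_range_self l⟩ : Q))
      (fun x y hxy => hinj (congrArg Subtype.val hxy))
    exact h3
  have ha : ∀ x : Fin (j + 1) → F, ∑ i, x i = 0 → Fintype.linearCombination F a x = 0 →
      x = 0 := by
    intro x hsum hcomb
    rw [Fintype.linearCombination_apply, Fin.sum_univ_succ] at hcomb
    have h0 : a 0 = 0 := by simp [a, g]
    have hs : ∀ l : Fin j, a l.succ = X.mkQ (v (b (idx l))) := by
      intro l
      simp [a, g]
    rw [h0, smul_zero, zero_add] at hcomb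
    simp only [hs] at hcomb
    have h4 := (Fintype.linearIndependent_iff.1 hind) (fun l => x l.succ) hcomb
    rw [Fin.sum_univ_succ] at hsum
    simp only [h4, Finset.sum_const_zero, add_zero] at hsum
    funext l
    refine Fin.cases hsum (fun l => h4 l) l
  -- the vectors of the edges
  have hgmem : ∀ l, g l ∈ span F ((fun l => v (b l)) '' {l | l.val < p + j}) := by
    intro l
    refine Fin.cases ?_ (fun l => ?_) l
    · simp [g]
    · have : g l.succ = v (b (idx l)) := by simp [g]
      rw [this]
      refine subset_span ⟨idx l, ?_, rfl⟩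
      show p + l.val < p + j
      omega
  have hdmem : ∀ s, diffVec g s ∈ span F ((fun l => v (b l)) '' {l | l.val < p + j}) :=
    fun s => sub_mem (hgmem _) (hgmem _)
  have hmk : ∀ s, X.mkQ (diffVec g s) = diffVec a s := by
    intro s
    simp [diffVec, a]
  have hdnot : ∀ s ∈ edges (j + 1), diffVec g s ∉ X := by
    intro s hs hmem
    have h1 : X.mkQ (diffVec g s) = 0 := by
      rw [Submodule.mkQ_apply, Submodule.Quotient.mk_eq_zero]
      exact hmem
    rw [hmk, ← comb_diffVec (F := F) a s] at h1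
    have h2 := ha _ (sum_diffVec_std s) h1
    have h3 := diffVec_std_ne (F := F) s hs (Quot.out s).1
    rw [h2] at h3
    have h4 : (Quot.out s).1 ∈ s := by
      have h5 : (Quot.out s).1 ∈ s((Quot.out s).1, (Quot.out s).2) := Sym2.mem_mk_left _ _
      rwa [out_eq s] at h5
    exact (h3.2 h4) rfl
  have hch : ∀ s, ∃ e, ∃ c : F, s ∈ edges (j + 1) →
      e ∈ M.E ∧ c ≠ 0 ∧ v e - c • diffVec g s ∈ X := by
    intro s
    by_cases hs : s ∈ edges (j + 1)
    · obtain ⟨e, he, c, hc, hec⟩ := hfull _ (hdmem s) (hdnot s hs)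
      exact ⟨e, c, fun _ => ⟨he, hc, hec⟩⟩
    · exact ⟨b ⟨p, by omega⟩, 1, fun h => absurd h hs⟩
  choose ψ c hψc using hch
  have hψE : ∀ s ∈ edges (j + 1), ψ s ∈ ((M.contract A).delete ∅).E := by
    intro s hs
    refine ⟨⟨(hψc s hs).1, fun hmem => ?_⟩, by simp⟩
    have h1 : v (ψ s) ∈ X := subset_span (mem_image_of_mem v hmem)
    have h2 : c s • diffVec g s ∈ X := by
      have := X.sub_mem h1 (hψc s hs).2.2
      rwa [sub_sub_cancel] at this
    exact hdnot s hs ((X.smul_mem_iff (hψc s hs).2.1).1 h2)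
  have hiso := exists_clique (h.minor A ∅ hAE) a ha ψ c hψE (fun s hs => (hψc s hs).2.1) (by
    intro s hs
    have h1 := (hψc s hs).2.2
    have h2 : X.mkQ (v (ψ s) - c s • diffVec g s) = 0 := by
      rw [Submodule.mkQ_apply, Submodule.Quotient.mk_eq_zero]
      exact h1
    rw [map_sub, map_smul, hmk, sub_eq_zero] at h2
    exact h2)
  refine ⟨cyc F (j + 1), _, cyc_isCompleteGraphMatroid F (j + 1), ?_, hiso⟩
  refine Matroid.IsMinor.trans ?_ ⟨A, ∅, rfl⟩
  apply restrict_isMinor
  rintro _ ⟨s, hs, rfl⟩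
  exact hψE s hs

/-- **Blocks of small rank.** If `t j ≤ r(M) ≤ k + t` for a `k`-block `M`, then `M` has a minor
isomorphic to the cycle matroid of the complete graph on `j + 1` vertices. -/
theorem small_rank [Finite F] [FiniteDimensional F V] {M : Matroid α} [M.Finite]
    (hs : IsSimple M) {v : α → V} (h : Rep F M v) {k j t : ℕ} (hj : 0 < j)
    (hk : (k : ℕ∞) < critExp M (Nat.card F)) (htj : t * j ≤ rk M M.E)
    (hkt : rk M M.E ≤ k + t) : HasCliqueMinor (j + 1) M := by
  classical
  by_contra hno
  obtain ⟨B, hB⟩ := M.exists_isBase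
  have hBfin : B.Finite := M.ground_finite.subset hB.subset_ground
  have hBrk : B.ncard = rk M M.E := by
    rw [rk, Set.ncard, hB.encard_eq_eRank, Matroid.eRk_ground]
  have hBind : LinearIndepOn F v B := (h B hB.subset_ground).1 hB.indep
  set r := rk M M.E with hr
  have : Fintype B := hBfin.fintype
  have hcard : Fintype.card B = r := by
    rw [← hBrk, Set.ncard_eq_toFinset_card' B, Set.toFinset_card]
  let eB : Fin r ≃ B := (Fintype.equivFinOfCardEq hcard).symm
  let b : Fin r → α := fun l => (eB l).1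
  have hbE : ∀ l, b l ∈ M.E := fun l => hB.subset_ground (eB l).2
  have hb : LinearIndependent F (fun l => v (b l)) := by
    have := LinearIndependent.comp hBind eB eB.injective
    exact this
  let X : ℕ → Submodule F V := fun i => span F ((fun l => v (b l)) '' {l | l.val < i * j})
  have hXmono : ∀ i, X i ≤ X (i + 1) := by
    intro i
    apply span_mono
    apply image_mono
    intro l hl
    have h1 : l.val < i * j := hl
    show l.val < (i + 1) * j
    rw [Nat.succ_mul]
    omega
  have hsimple : ∀ x ∈ v '' M.E, x ≠ 0 := by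
    rintro _ ⟨e, he, rfl⟩
    have h1 := hs e he e he
    rw [pair_eq_singleton, h _ (singleton_subset_iff.2 he)] at h1
    exact h1.ne_zero (mem_singleton e)
  obtain ⟨W, hW1, hW2, hW3⟩ := chain_space (F := F) hsimple X hXmono t (by
    intro i hi
    by_contra hcon
    push Not at hcon
    apply hno
    have hle : i * j + j ≤ r := by
      have : (i + 1) * j ≤ t * j := Nat.mul_le_mul_right j hi
      rw [Nat.succ_mul] at this
      omega
    refine step_minor h hj b hbE hb hle ?_
    intro w hw hwX
    have hw' : w ∈ X (i + 1) := by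
      show w ∈ span F ((fun l => v (b l)) '' {l | l.val < (i + 1) * j})
      rw [Nat.succ_mul]
      exact hw
    obtain ⟨e, he, c, hc, hec⟩ := hcon w hw' hwX
    obtain ⟨e', he', rfl⟩ := he
    exact ⟨e', he', c, hc, hec⟩)
  have hXt : X t ≤ span F (v '' M.E) := by
    apply span_mono
    rintro _ ⟨l, _, rfl⟩
    exact mem_image_of_mem v (hbE l)
  obtain ⟨f, hf⟩ := extend_map (span F (v '' M.E)) W (k := k) (by
    rw [← h.rk_eq subset_rfl]
    omega) (hW1.trans hXt)
  obtain ⟨e, he, hfe⟩ := (lt_critExp_iff h k).1 hk f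
  exact hW3 (v e) (mem_image_of_mem v he) (hf (v e) (subset_span (mem_image_of_mem v he)) hfe)

end Pool.Agent.Helper335.Clique
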