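import Pool.Agent.Helper335.ModHyp.Final

/-! # Finding the cycle matroid of a complete graph in a represented matroid -/

namespace Pool.Agent.Helper335.Clique

open Set Module Submodule Pool.Agent.Helper236 Pool.Agent.Helper335.ModHyp

variable {α : Type*} {F U : Type*} [Field F] [AddCommGroup U] [Module F U] {n : ℕ}

/-- the set of edges of the complete graph -/
abbrev edges (n : ℕ) : Set (Sym2 (Fin n)) := (⊤ : SimpleGraph (Fin n)).edgeSet

theorem diffVec_std_ne (s : Sym2 (Fin n)) (hs : s ∈ edges n) (l : Fin n) :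
    diffVec (std F n) s l ≠ 0 ↔ l ∈ s := by
  classical
  have h := out_eq s
  have hne : (Quot.out s).1 ≠ (Quot.out s).2 := by
    intro heq
    have h2 : s(((Quot.out s).1), ((Quot.out s).2)) ∈ edges n := by rwa [h]
    have h3 : (Quot.out s).1 ≠ (Quot.out s).2 := by simpa [edges] using h2
    exact h3 heq
  have hmem : l ∈ s ↔ l = (Quot.out s).1 ∨ l = (Quot.out s).2 := by
    conv_lhs => rw [← h]
    exact Sym2.mem_iff
  rw [hmem, diffVec, Pi.sub_apply, std, std]
  by_cases h1 : l = (Quot.out s).1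
  · have h2 : l ≠ (Quot.out s).2 := by rw [h1]; exact hne
    rw [← h1]
    simp [Pi.single_eq_of_ne h2]
  · by_cases h2 : l = (Quot.out s).2
    · rw [Pi.single_eq_of_ne h1, ← h2]
      simp
    · rw [Pi.single_eq_of_ne h1, Pi.single_eq_of_ne h2]
      simp [h1, h2]

theorem sum_diffVec_std (s : Sym2 (Fin n)) : ∑ i, diffVec (std F n) s i = 0 := by
  classical
  simp only [diffVec, Pi.sub_apply, Finset.sum_sub_distrib, std]
  simp

theorem comb_diffVec (a : Fin n → U) (s : Sym2 (Fin n)) :
    Fintype.linearCombination F a (diffVec (std F n) s) = diffVec a s := by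
  simp [diffVec, std]

theorem sym2_eq_of_scaled {s s' : Sym2 (Fin n)} (hs : s ∈ edges n) (hs' : s' ∈ edges n)
    {c c' : F} (hc : c ≠ 0) (hc' : c' ≠ 0)
    (h : c • diffVec (std F n) s = c' • diffVec (std F n) s') : s = s' := by
  apply Sym2.ext
  intro l
  rw [← diffVec_std_ne (F := F) s hs l, ← diffVec_std_ne (F := F) s' hs' l, not_iff_not]
  have := congrFun h l
  simp only [Pi.smul_apply, smul_eq_mul] at this
  constructor
  · intro h0
    rw [h0, mul_zero] at this
    rcases mul_eq_zero.1 this.symm with h1 | h1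
    · exact absurd h1 hc'
    · exact h1
  · intro h0
    rw [h0, mul_zero] at this
    rcases mul_eq_zero.1 this with h1 | h1
    · exact absurd h1 hc
    · exact h1

theorem iso_of_injOn {β : Type*} {P : Matroid β} {Q : Matroid α} (ψ : β → α)
    (hinj : InjOn ψ P.E) (hind : ∀ I ⊆ P.E, (P.Indep I ↔ Q.Indep (ψ '' I))) :
    Iso P (Q.restrict (ψ '' P.E)) := by
  let e : P.E ≃ (Q.restrict (ψ '' P.E)).E := Equiv.Set.imageOfInjOn ψ P.E hinj
  refine ⟨e, fun I => ?_⟩
  have himg : ((↑) '' (e '' I) : Set α) = ψ '' ((↑) '' I : Set β) := by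
    ext y
    constructor
    · rintro ⟨_, ⟨x, hx, rfl⟩, rfl⟩
      exact ⟨x, ⟨x, hx, rfl⟩, rfl⟩
    · rintro ⟨_, ⟨x, hx, rfl⟩, rfl⟩
      exact ⟨e x, ⟨x, hx, rfl⟩, rfl⟩
  have hIE : ((↑) '' I : Set β) ⊆ P.E := by
    rintro _ ⟨x, _, rfl⟩
    exact x.2
  rw [himg, Matroid.restrict_indep_iff, and_iff_left (image_mono hIE), hind _ hIE]

/-- Scalar multiples of all differences of `n` affinely independent points. -/
theorem clique_core {u : α → U} (a : Fin n → U)
    (ha : ∀ x : Fin n → F, ∑ i, x i = 0 → Fintype.linearCombination F a x = 0 → x = 0)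
    (ψ : Sym2 (Fin n) → α) (c : Sym2 (Fin n) → F)
    (hc : ∀ s ∈ edges n, c s ≠ 0) (huc : ∀ s ∈ edges n, u (ψ s) = c s • diffVec a s) :
    InjOn ψ (edges n) ∧ ∀ I ⊆ edges n, (LinearIndepOn F u (ψ '' I) ↔
      LinearIndepOn F (diffVec (std F n)) I) := by
  classical
  set T := Fintype.linearCombination F a with hT
  set Z : Submodule F (Fin n → F) := LinearMap.ker (Fintype.linearCombination F (fun _ => (1 : F)))
    with hZ
  have hZmem : ∀ x : Fin n → F, x ∈ Z ↔ ∑ i, x i = 0 := by
    intro x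
    rw [hZ, LinearMap.mem_ker, Fintype.linearCombination_apply]
    simp
  have hdZ : ∀ s, diffVec (std F n) s ∈ Z := fun s => (hZmem _).2 (sum_diffVec_std s)
  have hTinj : InjOn T Z := by
    intro x hx y hy hxy
    have h1 : x - y ∈ Z := Z.sub_mem hx hy
    have h2 : T (x - y) = 0 := by rw [map_sub, hxy, sub_self]
    have h3 := ha (x - y) ((hZmem _).1 h1) h2
    exact sub_eq_zero.1 h3
  have hinj : InjOn ψ (edges n) := by
    intro s hs s' hs' heq
    have h1 : c s • diffVec a s = c s' • diffVec a s' := by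
      rw [← huc s hs, ← huc s' hs', heq]
    rw [← comb_diffVec (F := F) a s, ← comb_diffVec (F := F) a s', ← map_smul, ← map_smul] at h1
    have h2 := hTinj (Z.smul_mem _ (hdZ s)) (Z.smul_mem _ (hdZ s')) h1
    exact sym2_eq_of_scaled hs hs' (hc s hs) (hc s' hs') h2
  have hkey : ∀ I ⊆ edges n, (LinearIndepOn F u (ψ '' I) ↔
      LinearIndepOn F (diffVec (std F n)) I) := by
    intro I hI
    have h1 : LinearIndepOn F u (ψ '' I) ↔ LinearIndepOn F (u ∘ ψ) I :=
      ⟨fun hh => hh.comp_of_image (hinj.mono hI), fun hh => hh.image_of_comp⟩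
    have h2 : LinearIndepOn F (T ∘ diffVec (std F n)) I ↔
        LinearIndepOn F (diffVec (std F n)) I := by
      apply LinearMap.linearIndepOn_iff_of_injOn
      apply hTinj.mono
      rw [SetLike.coe_subset_coe, span_le]
      rintro _ ⟨s, _, rfl⟩
      exact hdZ s
    rw [h1, ← h2]
    let w : I → Fˣ := fun s => Units.mk0 (c s.1) (hc s.1 (hI s.2))
    have h3 : (fun s : I => (u ∘ ψ) s.1) = w • (fun s : I => (T ∘ diffVec (std F n)) s.1) := by
      funext s
      have h4 : T (diffVec (std F n) s.1) = diffVec a s.1 := comb_diffVec a s.1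
      simp only [Function.comp_apply, Pi.smul_apply', h4, huc s.1 (hI s.2), w]
      rfl
    rw [LinearIndepOn, LinearIndepOn, h3, LinearIndependent.units_smul_iff]
  exact ⟨hinj, hkey⟩

/-- A represented matroid whose elements contain scalar multiples of all differences of `n`
affinely independent points contains the cycle matroid of the complete graph on `n` vertices. -/
theorem exists_clique {N : Matroid α} {u : α → U} (h : Rep F N u) (a : Fin n → U)
    (ha : ∀ x : Fin n → F, ∑ i, x i = 0 → Fintype.linearCombination F a x = 0 → x = 0)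
    (ψ : Sym2 (Fin n) → α) (c : Sym2 (Fin n) → F) (hψ : ∀ s ∈ edges n, ψ s ∈ N.E)
    (hc : ∀ s ∈ edges n, c s ≠ 0) (huc : ∀ s ∈ edges n, u (ψ s) = c s • diffVec a s) :
    Iso (cyc F n) (N.restrict (ψ '' edges n)) := by
  classical
  obtain ⟨hinj, hkey⟩ := clique_core (F := F) (u := u) a ha ψ c hc huc
  have himgE : ψ '' edges n ⊆ N.E := by
    rintro _ ⟨s, hs, rfl⟩
    exact hψ s hs
  refine iso_of_injOn (P := cyc F n) (Q := N) ψ hinj ?_
  intro I hI
  have hcyc : (cyc F n).Indep I ↔ LinearIndepOn F (diffVec (std F n)) I :=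
    linMatroid_rep (F := F) (diffVec (std F n)) (edges n) (Set.toFinite _) _ hI
  rw [hcyc, h _ ((image_mono hI).trans himgE), hkey _ hI]

end Pool.Agent.Helper335.Clique
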