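import Pool.Agent.Helper335.Clique.Simp

/-! # Normal blocks contain complete graphs -/

namespace Pool.Agent.Helper335.Clique

open Set Module Submodule Pool.Agent.Helper236 Pool.Agent.Helper335.ModHyp

variable {α : Type*}

/-- A normal matroid of rank at least `m - 1` contains the cycle matroid of the complete graph on
`m` vertices. -/
theorem normal_clique {m0 : ℕ} {M : Matroid α} (hN : NormalAt m0 M) {m : ℕ} (h2m : 2 ≤ m)
    {I : Set α} (hI : M.Indep I) (hm : (m : ℕ∞) ≤ I.encard + 1) : HasCliqueRestriction m M := by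
  classical
  obtain ⟨K, N, S, hK, hq, hsimp, e, he⟩ := hN
  have hKcyc : K = cyc ℚ (m0 + 1) := by
    refine Matroid.ext_indep ?_ ?_
    · rw [hK.1, (cyc_isCompleteGraphMatroid ℚ (m0 + 1)).1]
    · intro J hJ
      rw [hK.2 J hJ, (cyc_isCompleteGraphMatroid ℚ (m0 + 1)).2 J]
      rwa [hK.1] at hJ
  rw [hKcyc] at hq
  obtain ⟨T, hTnl, hTuniq, hS⟩ := hsimp
  have hSE : S.E = T := by rw [hS, Matroid.restrict_ground_eq]
  have hSind : ∀ J, S.Indep J ↔ N.Indep J ∧ J ⊆ T := by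
    intro J
    rw [hS, Matroid.restrict_indep_iff]
  -- the rank
  have hrank : (m : ℕ∞) ≤ N.eRank + 1 := by
    refine hm.trans ?_
    gcongr
    let I' : Set M.E := Subtype.val ⁻¹' I
    have h1 : ((↑) '' I' : Set α) = I := by
      rw [Subtype.image_preimage_coe, inter_eq_right.2 hI.subset_ground]
    have h2 := (he I').1 (by rwa [h1])
    have h3 : I.encard = (((↑) '' (e '' I')) : Set (Sym2 (Fin (m0 + 1)))).encard := by
      rw [Subtype.val_injective.encard_image, e.injective.encard_image, ← h1,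
        Subtype.val_injective.encard_image]
    rw [h3]
    exact ((hSind _).1 h2).1.encard_le_eRank
  obtain ⟨ψ, hψinj, hψE, hψ⟩ := quot_clique hq hrank
  have hYpair : ∀ x ∈ ψ '' edges m, ∀ y ∈ ψ '' edges m, N.Indep {x, y} := by
    rintro _ ⟨s, hs, rfl⟩ _ ⟨s', hs', rfl⟩
    rw [← image_pair, hψ _ (by rintro x (rfl | rfl) <;> assumption)]
    exact cyc_pair ℚ hs hs'
  have hnl : ∀ x ∈ ψ '' edges m, N.IsNonloop x := by
    intro x hx
    have := hYpair x hx x hx
    rwa [pair_eq_singleton, Matroid.indep_singleton] at this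
  have hρex : ∀ x, ∃ y, x ∈ ψ '' edges m → (y ∈ T ∧ (y = x ∨ ¬ N.Indep {y, x})) := by
    intro x
    by_cases hx : x ∈ ψ '' edges m
    · obtain ⟨y, hy, _⟩ := hTuniq x (hnl x hx)
      exact ⟨y, fun _ => hy⟩
    · exact ⟨x, fun h => absurd h hx⟩
  choose ρ hρ using hρex
  obtain ⟨hρinj, hρind⟩ := parallel_replace hψE ρ
    (fun x hx => ⟨hTnl _ (hρ x hx).1, (hρ x hx).2⟩) hnl (fun x hx y hy _ => hYpair x hx y hy)
  have hχT : ∀ s ∈ edges m, ρ (ψ s) ∈ S.E := by
    intro s hs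
    rw [hSE]
    exact (hρ _ (mem_image_of_mem ψ hs)).1
  have hs0 : s((⟨0, by omega⟩ : Fin m), ⟨1, by omega⟩) ∈ edges m := by
    simp [edges]
  have hne : Nonempty α := ⟨(e.symm ⟨_, hχT _ hs0⟩).1⟩
  let φ : Sym2 (Fin m) → α := fun s =>
    if h : ρ (ψ s) ∈ S.E then (e.symm ⟨_, h⟩).1 else Classical.arbitrary α
  have hφ : ∀ s (hs : s ∈ edges m), φ s = (e.symm ⟨_, hχT s hs⟩).1 := by
    intro s hs
    simp only [φ, dif_pos (hχT s hs)]
  have hφinj : InjOn φ (edges m) := by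
    intro s hs s' hs' heq
    rw [hφ s hs, hφ s' hs'] at heq
    have h1 := e.symm.injective (Subtype.val_injective heq)
    have h2 : ρ (ψ s) = ρ (ψ s') := congrArg Subtype.val h1
    have h3 := hρinj (mem_image_of_mem ψ hs) (mem_image_of_mem ψ hs') h2
    exact hψinj hs hs' h3
  have hφE : φ '' edges m ⊆ M.E := by
    rintro _ ⟨s, hs, rfl⟩
    rw [hφ s hs]
    exact (e.symm _).2
  have hφind : ∀ J ⊆ (cyc ℚ m).E, ((cyc ℚ m).Indep J ↔ M.Indep (φ '' J)) := by
    intro J hJ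
    have hJ' : J ⊆ edges m := hJ
    let J' : Set M.E := Subtype.val ⁻¹' (φ '' J)
    have h1 : ((↑) '' J' : Set α) = φ '' J := by
      rw [Subtype.image_preimage_coe, inter_eq_right.2 ((image_mono hJ').trans hφE)]
    have h2 : (((↑) '' (e '' J')) : Set (Sym2 (Fin (m0 + 1)))) = ρ '' (ψ '' J) := by
      ext y
      constructor
      · rintro ⟨_, ⟨x, hx, rfl⟩, rfl⟩
        obtain ⟨s, hs, hsx⟩ := hx
        rw [hφ s (hJ' hs)] at hsx
        have h3 : e.symm ⟨_, hχT s (hJ' hs)⟩ = x := Subtype.val_injective hsx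
        rw [← h3, Equiv.apply_symm_apply]
        exact ⟨ψ s, ⟨s, hs, rfl⟩, rfl⟩
      · rintro ⟨_, ⟨s, hs, rfl⟩, rfl⟩
        refine ⟨⟨_, hχT s (hJ' hs)⟩, ⟨e.symm ⟨_, hχT s (hJ' hs)⟩, ?_, ?_⟩, rfl⟩
        · exact ⟨s, hs, hφ s (hJ' hs)⟩
        · exact Equiv.apply_symm_apply _ _
    rw [← h1, he J', h2, hSind, hρind _ (image_mono hJ'), hψ J hJ']
    refine ⟨fun h => ⟨h, ?_⟩, fun h => h.1⟩
    rintro _ ⟨_, ⟨s, hs, rfl⟩, rfl⟩
    rw [← hSE]
    exact hχT s (hJ' hs)
  exact ⟨cyc ℚ m, φ '' edges m, cyc_isCompleteGraphMatroid ℚ m, hφE,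
    iso_of_injOn (P := cyc ℚ m) (Q := M) φ hφinj hφind⟩

/-- A `k`-block has rank at least `k + 1`. -/
theorem block_rank {F V : Type*} [Field F] [Finite F] [AddCommGroup V] [Module F V]
    [FiniteDimensional F V] {M : Matroid α} [M.Finite] (hs : IsSimple M) {v : α → V}
    (h : Rep F M v) {k : ℕ} (hk : (k : ℕ∞) < critExp M (Nat.card F)) : k + 1 ≤ rk M M.E := by
  by_contra hlt
  obtain ⟨f, hf⟩ := extend_map (span F (v '' M.E)) ⊥ (k := k) (by
    rw [← h.rk_eq subset_rfl]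
    simp
    omega) bot_le
  obtain ⟨e, he, hfe⟩ := (lt_critExp_iff h k).1 hk f
  have h0 := hf (v e) (subset_span (mem_image_of_mem v he)) hfe
  have h1 := hs e he e he
  rw [pair_eq_singleton, h _ (singleton_subset_iff.2 he)] at h1
  exact h1.ne_zero (mem_singleton e) (by simpa using h0)

/-- Normal `k`-blocks contain the cycle matroid of the complete graph on `k + 2` vertices. -/
theorem normal_block {F V : Type*} [Field F] [Finite F] [AddCommGroup V] [Module F V]
    [FiniteDimensional F V] {M : Matroid α} [M.Finite] (hs : IsSimple M) {v : α → V}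
    (h : Rep F M v) {k m0 : ℕ} (hk : (k : ℕ∞) < critExp M (Nat.card F)) (hN : NormalAt m0 M) :
    HasCliqueRestriction (k + 2) M := by
  have h1 := block_rank hs h hk
  obtain ⟨B, hB⟩ := M.exists_isBase
  have hBfin : B.Finite := M.ground_finite.subset hB.subset_ground
  have hBrk : B.ncard = rk M M.E := by
    rw [rk, Set.ncard, hB.encard_eq_eRank, Matroid.eRk_ground]
  refine normal_clique hN (by omega) hB.indep ?_
  rw [← hBfin.cast_ncard_eq, hBrk]
  exact_mod_cast (by omega : k + 2 ≤ rk M M.E + 1)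

end Pool.Agent.Helper335.Clique
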