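import Pool.Agent.Helper335.Clique.Super

/-! # Blocks of small rank have large projective geometries as minors -/

namespace Pool.Agent.Helper335.Clique

open Set Module Submodule Pool.Agent.Helper236 Pool.Agent.Helper335.ModHyp

variable {α : Type*} {F V : Type*} [Field F] [AddCommGroup V] [Module F V]

/-- `M` has a minor whose simplification is the projective geometry of rank `j` over `F`: a minor
`N` represented by vectors of `F ^ j` which include a multiple of every nonzero vector. -/
def HasProjectiveMinor (F : Type*) [Field F] (j : ℕ) (M : Matroid α) : Prop :=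
  ∃ (N : Matroid α) (w : α → (Fin j → F)), N.IsMinor M ∧
    (∀ I ⊆ N.E, N.Indep I ↔ LinearIndepOn F w I) ∧
    ∀ x : Fin j → F, x ≠ 0 → ∃ e ∈ N.E, ∃ c : F, c ≠ 0 ∧ w e = c • x

theorem HasProjectiveMinor.clique {j : ℕ} (hj : 0 < j) {M : Matroid α}
    (h : HasProjectiveMinor F j M) : HasCliqueMinor (j + 1) M := by
  classical
  obtain ⟨N, w, hNM, hw, hcov⟩ := h
  let a : Fin (j + 1) → (Fin j → F) := Fin.cons 0 (fun l => Pi.single l 1)
  have ha : ∀ x : Fin (j + 1) → F, ∑ i, x i = 0 → Fintype.linearCombination F a x = 0 →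
      x = 0 := by
    intro x hsum hcomb
    rw [Fintype.linearCombination_apply, Fin.sum_univ_succ] at hcomb
    have h0 : a 0 = 0 := by simp [a]
    have hs : ∀ l : Fin j, a l.succ = Pi.single l 1 := by
      intro l
      simp [a]
    rw [h0, smul_zero, zero_add] at hcomb
    simp only [hs] at hcomb
    have h4 : ∀ l : Fin j, x l.succ = 0 := by
      intro l
      have h5 := congrFun hcomb l
      rw [Finset.sum_apply, Finset.sum_eq_single l] at h5
      · simpa using h5
      · intro l' _ hl'
        simp [Pi.single_eq_of_ne hl'.symm]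
      · simp
    rw [Fin.sum_univ_succ] at hsum
    simp only [h4, Finset.sum_const_zero, add_zero] at hsum
    funext l
    refine Fin.cases hsum (fun l => h4 l) l
  have hne : ∀ s ∈ edges (j + 1), diffVec a s ≠ 0 := by
    intro s hs h1
    rw [← comb_diffVec (F := F) a s] at h1
    have h2 := ha _ (sum_diffVec_std s) h1
    have h3 := diffVec_std_ne (F := F) s hs (Quot.out s).1
    rw [h2] at h3
    have h4 : (Quot.out s).1 ∈ s := by
      have h5 : (Quot.out s).1 ∈ s((Quot.out s).1, (Quot.out s).2) := Sym2.mem_mk_left _ _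
      rwa [out_eq s] at h5
    exact (h3.2 h4) rfl
  obtain ⟨e0, -, -⟩ := hcov (Pi.single ⟨0, hj⟩ 1) (by
    intro h0
    have := congrFun h0 ⟨0, hj⟩
    simp at this)
  have hch : ∀ s, ∃ e, ∃ c : F, s ∈ edges (j + 1) →
      e ∈ N.E ∧ c ≠ 0 ∧ w e = c • diffVec a s := by
    intro s
    by_cases hs : s ∈ edges (j + 1)
    · obtain ⟨e, he, c, hc, hec⟩ := hcov _ (hne s hs)
      exact ⟨e, c, fun _ => ⟨he, hc, hec⟩⟩
    · exact ⟨e0, 1, fun h => absurd h hs⟩
  choose ψ c hψc using hch
  have hiso := exists_clique (F := F) (N := N) (u := w) hw a ha ψ c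
    (fun s hs => (hψc s hs).1) (fun s hs => (hψc s hs).2.1) (fun s hs => (hψc s hs).2.2)
  refine ⟨cyc F (j + 1), _, cyc_isCompleteGraphMatroid F (j + 1), ?_, hiso⟩
  refine Matroid.IsMinor.trans (restrict_isMinor ?_) hNM
  rintro _ ⟨s, hs, rfl⟩
  exact (hψc s hs).1

/-- A full step in a chain gives a projective geometry. -/
theorem step_pg {M : Matroid α} {v : α → V} (h : Rep F M v) {r j p : ℕ} (b : Fin r → α)
    (hbE : ∀ l, b l ∈ M.E) (hb : LinearIndependent F (fun l => v (b l))) (hp : p + j ≤ r)
    (hfull : ∀ w ∈ span F ((fun l => v (b l)) '' {l | l.val < p + j}),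
      w ∉ span F ((fun l => v (b l)) '' {l | l.val < p}) →
      ∃ e ∈ M.E, ∃ c : F, c ≠ 0 ∧ v e - c • w ∈ span F ((fun l => v (b l)) '' {l | l.val < p})) :
    HasProjectiveMinor F j M := by
  classical
  set P : Set (Fin r) := {l | l.val < p} with hP
  set A : Set α := b '' P with hA
  have hAE : A ⊆ M.E := by
    rintro _ ⟨l, _, rfl⟩
    exact hbE l
  have hX : span F (v '' A) = span F ((fun l => v (b l)) '' P) := by
    rw [hA, image_image]
  set X := span F (v '' A) with hXdef
  rw [← hX] at hfull
  set Y := span F ((fun l => v (b l)) '' {l | l.val < p + j}) with hY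
  have hXY : X ≤ Y := by
    rw [hX, hY]
    apply span_mono
    apply image_mono
    intro l hl
    have : l.val < p := hl
    show l.val < p + j
    omega
  let idx : Fin j → Fin r := fun l => ⟨p + l.val, by omega⟩
  have hind : LinearIndependent F (fun l : Fin j => X.mkQ (v (b (idx l)))) := by
    set Q : Set (Fin r) := Set.range idx with hQ
    have hdisj : Disjoint P Q := by
      rw [Set.disjoint_left]
      rintro _ hl ⟨l, rfl⟩
      have : p + l.val < p := hl
      omega
    have h1 : LinearIndepOn F (fun l => v (b l)) (P ∪ Q) := hb.linearIndepOn _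
    have h2 := ((linearIndepOn_union_iff_quotient hdisj).1 h1).2
    rw [← hX] at h2
    have hinj : Function.Injective idx := by
      intro x y hxy
      have : p + x.val = p + y.val := congrArg Fin.val hxy
      exact Fin.ext (by omega)
    exact h2.comp (fun l : Fin j => (⟨idx l, mem_range_self l⟩ : Q))
      (fun x y hxy => hinj (congrArg Subtype.val hxy))
  let T : (Fin j → F) →ₗ[F] (V ⧸ X) :=
    Fintype.linearCombination F (fun l : Fin j => X.mkQ (v (b (idx l))))
  have hTinj : LinearMap.ker T = ⊥ := by
    rw [LinearMap.ker_eq_bot']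
    intro x hx
    funext l
    exact (Fintype.linearIndependent_iff.1 hind) x hx l
  obtain ⟨g, hg⟩ := LinearMap.exists_leftInverse_of_injective T hTinj
  have hgT : ∀ x, g (T x) = x := fun x => LinearMap.congr_fun hg x
  have hginj : InjOn g (LinearMap.range T) := by
    rintro _ ⟨x, rfl⟩ _ ⟨y, rfl⟩ hxy
    rw [hgT, hgT] at hxy
    rw [hxy]
  have hYT : ∀ y ∈ Y, X.mkQ y ∈ LinearMap.range T := by
    intro y hy
    have hle : Y ≤ (LinearMap.range T).comap X.mkQ := by
      rw [hY, span_le]
      rintro _ ⟨l, hl, rfl⟩
      have hl' : l.val < p + j := hl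
      show X.mkQ (v (b l)) ∈ LinearMap.range T
      by_cases hlp : l.val < p
      · have : X.mkQ (v (b l)) = 0 := by
          rw [Submodule.mkQ_apply, Submodule.Quotient.mk_eq_zero, hX]
          exact subset_span ⟨l, hlp, rfl⟩
        rw [this]
        exact zero_mem _
      · refine ⟨Pi.single ⟨l.val - p, by omega⟩ 1, ?_⟩
        have hidx : idx ⟨l.val - p, by omega⟩ = l := Fin.ext (by simp [idx]; omega)
        show Fintype.linearCombination F _ _ = _
        rw [Fintype.linearCombination_apply, Finset.sum_eq_single ⟨l.val - p, by omega⟩]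
        · rw [Pi.single_eq_same, one_smul, hidx]
        · intro l' _ hl''
          rw [Pi.single_eq_of_ne hl'', zero_smul]
        · intro hcon
          exact absurd (Finset.mem_univ _) hcon
    exact hle hy
  set D : Set α := {e | v e ∉ Y} with hD
  refine ⟨(M.contract A).delete D, fun e => g (X.mkQ (v e)), ⟨A, D, rfl⟩, ?_, ?_⟩
  · intro I hI
    rw [h.minor A D hAE I hI]
    refine (LinearMap.linearIndepOn_iff_of_injOn g (v := X.mkQ ∘ v) ?_).symm
    apply hginj.mono
    rw [SetLike.coe_subset_coe, span_le]
    rintro _ ⟨e, he, rfl⟩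
    have h1 : e ∉ D := (hI he).2
    have h2 : v e ∈ Y := by
      by_contra hcon
      exact h1 hcon
    exact hYT _ h2
  · intro x hx
    let y : V := ∑ l : Fin j, x l • v (b (idx l))
    have hyY : y ∈ Y := by
      apply sum_mem
      intro l _
      apply Y.smul_mem
      refine subset_span ⟨idx l, ?_, rfl⟩
      show p + l.val < p + j
      omega
    have hmk : X.mkQ y = T x := by
      show X.mkQ (∑ l : Fin j, x l • v (b (idx l))) = Fintype.linearCombination F _ _
      rw [Fintype.linearCombination_apply, map_sum]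
      refine Finset.sum_congr rfl fun l _ => ?_
      rw [map_smul]
    have hTx : T x ≠ 0 := by
      intro h0
      apply hx
      have := hgT x
      rw [h0, map_zero] at this
      exact this.symm
    have hyX : y ∉ X := by
      intro hmem
      apply hTx
      rw [← hmk, Submodule.mkQ_apply, Submodule.Quotient.mk_eq_zero]
      exact hmem
    obtain ⟨e, he, c, hc, hec⟩ := hfull y hyY hyX
    have h2 : X.mkQ (v e) = c • T x := by
      have h3 : X.mkQ (v e - c • y) = 0 := by
        rw [Submodule.mkQ_apply, Submodule.Quotient.mk_eq_zero]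
        exact hec
      rw [map_sub, map_smul, hmk, sub_eq_zero] at h3
      exact h3
    refine ⟨e, ⟨⟨he, ?_⟩, ?_⟩, c, hc, ?_⟩
    · intro hmem
      have h3 : v e ∈ X := subset_span (mem_image_of_mem v hmem)
      have h4 : X.mkQ (v e) = 0 := by
        rw [Submodule.mkQ_apply, Submodule.Quotient.mk_eq_zero]
        exact h3
      rw [h4] at h2
      exact (smul_ne_zero hc hTx) h2.symm
    · intro hmem
      apply hmem
      have h3 := Y.add_mem (hXY hec) (Y.smul_mem c hyY)
      rwa [sub_add_cancel] at h3
    · show g (X.mkQ (v e)) = c • x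
      rw [h2, map_smul, hgT]

/-- **Blocks of small rank.** If `t j ≤ r(M) ≤ k + t` for a `k`-block `M` over `F`, then `M` has a
minor whose simplification is the projective geometry of rank `j` over `F`. -/
theorem small_rank_pg [Finite F] [FiniteDimensional F V] {M : Matroid α} [M.Finite]
    (hs : IsSimple M) {v : α → V} (h : Rep F M v) {k j t : ℕ}
    (hk : (k : ℕ∞) < critExp M (Nat.card F)) (htj : t * j ≤ rk M M.E)
    (hkt : rk M M.E ≤ k + t) : HasProjectiveMinor F j M := by
  classical
  by_contra hno
  obtain ⟨B, hB⟩ := M.exists_isBase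
  have hBfin : B.Finite := M.ground_finite.subset hB.subset_ground
  have hBrk : B.ncard = rk M M.E := by
    rw [rk, Set.ncard, hB.encard_eq_eRank, Matroid.eRk_ground]
  have hBind : LinearIndepOn F v B := (h B hB.subset_ground).1 hB.indep
  set r := rk M M.E with hr
  have : Fintype B := hBfin.fintype
  have hcard : Fintype.card B = r := by
    rw [← hBrk, Set.ncard_eq_toFinset_card' B, Set.toFinset_card]
  let eB : Fin r ≃ B := (Fintype.equivFinOfCardEq hcard).symm
  let b : Fin r → α := fun l => (eB l).1
  have hbE : ∀ l, b l ∈ M.E := fun l => hB.subset_ground (eB l).2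
  have hb : LinearIndependent F (fun l => v (b l)) := by
    have := LinearIndependent.comp hBind eB eB.injective
    exact this
  let X : ℕ → Submodule F V := fun i => span F ((fun l => v (b l)) '' {l | l.val < i * j})
  have hXmono : ∀ i, X i ≤ X (i + 1) := by
    intro i
    apply span_mono
    apply image_mono
    intro l hl
    have h1 : l.val < i * j := hl
    show l.val < (i + 1) * j
    rw [Nat.succ_mul]
    omega
  have hsimple : ∀ x ∈ v '' M.E, x ≠ 0 := by
    rintro _ ⟨e, he, rfl⟩
    have h1 := hs e he e he
    rw [pair_eq_singleton, h _ (singleton_subset_iff.2 he)] at h1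
    exact h1.ne_zero (mem_singleton e)
  obtain ⟨W, hW1, hW2, hW3⟩ := chain_space (F := F) hsimple X hXmono t (by
    intro i hi
    by_contra hcon
    push Not at hcon
    apply hno
    have hle : i * j + j ≤ r := by
      have : (i + 1) * j ≤ t * j := Nat.mul_le_mul_right j hi
      rw [Nat.succ_mul] at this
      omega
    refine step_pg h b hbE hb hle ?_
    intro w hw hwX
    have hw' : w ∈ X (i + 1) := by
      show w ∈ span F ((fun l => v (b l)) '' {l | l.val < (i + 1) * j})
      rw [Nat.succ_mul]
      exact hw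
    obtain ⟨e, he, c, hc, hec⟩ := hcon w hw' hwX
    obtain ⟨e', he', rfl⟩ := he
    exact ⟨e', he', c, hc, hec⟩)
  have hXt : X t ≤ span F (v '' M.E) := by
    apply span_mono
    rintro _ ⟨l, _, rfl⟩
    exact mem_image_of_mem v (hbE l)
  obtain ⟨f, hf⟩ := extend_map (span F (v '' M.E)) W (k := k) (by
    rw [← h.rk_eq subset_rfl]
    omega) (hW1.trans hXt)
  obtain ⟨e, he, hfe⟩ := (lt_critExp_iff h k).1 hk f
  exact hW3 (v e) (mem_image_of_mem v he) (hf (v e) (subset_span (mem_image_of_mem v he)) hfe)

end Pool.Agent.Helper335.Clique
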