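import Pool.Agent.Helper335.Clique.PG

/-! # Blocks of rank at most `2k`: adaptive chains -/

namespace Pool.Agent.Helper335.Clique

open Set Module Submodule Pool.Agent.Helper236 Pool.Agent.Helper335.ModHyp

variable {α : Type*} {F V : Type*} [Field F] [AddCommGroup V] [Module F V]

/-- If everything outside `X` is covered modulo `X`, there is a projective minor. -/
theorem pg_of_full [FiniteDimensional F V] {M : Matroid α} {v : α → V} (h : Rep F M v) {p : ℕ}
    {A : Set α} (hAE : A ⊆ M.E)
    (hp : finrank F (span F (v '' A)) + p ≤ finrank F (span F (v '' M.E)))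
    (hfull : ∀ w ∈ span F (v '' M.E), w ∉ span F (v '' A) →
      ∃ e ∈ M.E, ∃ c : F, c ≠ 0 ∧ v e - c • w ∈ span F (v '' A)) :
    HasProjectiveMinor F p M := by
  classical
  set X := span F (v '' A) with hX
  set V0 := span F (v '' M.E) with hV0
  -- independent vectors modulo `X`
  let φ : V0 →ₗ[F] (V ⧸ X) := X.mkQ.comp V0.subtype
  have hrk := LinearMap.finrank_range_add_finrank_ker φ
  have hker : finrank F (LinearMap.ker φ) ≤ finrank F X := by
    let ψ : LinearMap.ker φ →ₗ[F] X :=
      { toFun := fun x => ⟨x.1.1, by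
          have h1 : X.mkQ x.1.1 = 0 := x.2
          rwa [Submodule.mkQ_apply, Submodule.Quotient.mk_eq_zero] at h1⟩
        map_add' := fun x y => rfl
        map_smul' := fun c x => rfl }
    apply LinearMap.finrank_le_finrank_of_injective (f := ψ)
    intro x y hxy
    apply Subtype.ext
    apply Subtype.ext
    exact congrArg (fun z : X => z.1) hxy
  have hrange : p ≤ finrank F (LinearMap.range φ) := by omega
  let bas := Module.finBasis F (LinearMap.range φ)
  let B : Fin p → (V ⧸ X) := fun l => (bas (Fin.castLE hrange l)).1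
  have hind : LinearIndependent F B := by
    have h1 : LinearIndependent F (fun l : Fin p => bas (Fin.castLE hrange l)) :=
      bas.linearIndependent.comp _ (Fin.castLE_injective hrange)
    exact h1.map' (LinearMap.range φ).subtype (Submodule.ker_subtype _)
  have hBy : ∀ l, ∃ y ∈ V0, X.mkQ y = B l := by
    intro l
    obtain ⟨y, hy⟩ := (bas (Fin.castLE hrange l)).2
    exact ⟨y.1, y.2, hy⟩
  choose y hyV hyB using hBy
  let T : (Fin p → F) →ₗ[F] (V ⧸ X) := Fintype.linearCombination F B
  have hTinj : LinearMap.ker T = ⊥ := by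
    rw [LinearMap.ker_eq_bot']
    intro x hx
    funext l
    exact (Fintype.linearIndependent_iff.1 hind) x hx l
  obtain ⟨g, hg⟩ := LinearMap.exists_leftInverse_of_injective T hTinj
  have hgT : ∀ x, g (T x) = x := fun x => LinearMap.congr_fun hg x
  have hginj : InjOn g (LinearMap.range T) := by
    rintro _ ⟨x, rfl⟩ _ ⟨y, rfl⟩ hxy
    rw [hgT, hgT] at hxy
    rw [hxy]
  set D : Set α := {e | X.mkQ (v e) ∉ LinearMap.range T} with hD
  refine ⟨(M.contract A).delete D, fun e => g (X.mkQ (v e)), ⟨A, D, rfl⟩, ?_, ?_⟩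
  · intro I hI
    rw [h.minor A D hAE I hI]
    refine (LinearMap.linearIndepOn_iff_of_injOn g (v := X.mkQ ∘ v) ?_).symm
    apply hginj.mono
    rw [SetLike.coe_subset_coe, span_le]
    rintro _ ⟨e, he, rfl⟩
    have h1 : e ∉ D := (hI he).2
    by_contra hcon
    exact h1 hcon
  · intro x hx
    let z : V := ∑ l : Fin p, x l • y l
    have hzV : z ∈ V0 := sum_mem fun l _ => V0.smul_mem _ (hyV l)
    have hmk : X.mkQ z = T x := by
      show X.mkQ (∑ l : Fin p, x l • y l) = Fintype.linearCombination F B x
      rw [Fintype.linearCombination_apply, map_sum]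
      refine Finset.sum_congr rfl fun l _ => ?_
      rw [map_smul, hyB]
    have hTx : T x ≠ 0 := by
      intro h0
      apply hx
      have := hgT x
      rw [h0, map_zero] at this
      exact this.symm
    have hzX : z ∉ X := by
      intro hmem
      apply hTx
      rw [← hmk, Submodule.mkQ_apply, Submodule.Quotient.mk_eq_zero]
      exact hmem
    obtain ⟨e, he, c, hc, hec⟩ := hfull z hzV hzX
    have h2 : X.mkQ (v e) = c • T x := by
      have h3 : X.mkQ (v e - c • z) = 0 := by
        rw [Submodule.mkQ_apply, Submodule.Quotient.mk_eq_zero]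
        exact hec
      rw [map_sub, map_smul, hmk, sub_eq_zero] at h3
      exact h3
    refine ⟨e, ⟨⟨he, ?_⟩, ?_⟩, c, hc, ?_⟩
    · intro hmem
      have h3 : v e ∈ X := subset_span (mem_image_of_mem v hmem)
      have h4 : X.mkQ (v e) = 0 := by
        rw [Submodule.mkQ_apply, Submodule.Quotient.mk_eq_zero]
        exact h3
      rw [h4] at h2
      exact (smul_ne_zero hc hTx) h2.symm
    · intro hmem
      apply hmem
      rw [h2]
      exact Submodule.smul_mem _ _ ⟨x, rfl⟩
    · show g (X.mkQ (v e)) = c • x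
      rw [h2, map_smul, hgT]

/-- If `X` does not cover everything, some line of `M / X` is not full. -/
theorem exists_line {M : Matroid α} {v : α → V} (X : Submodule F V)
    (hno : ∃ w ∈ span F (v '' M.E), w ∉ X ∧ ∀ e ∈ M.E, ∀ c : F, c ≠ 0 → v e - c • w ∉ X) :
    ∃ e₁ ∈ M.E, ∃ e₂ ∈ M.E, ∃ w ∈ X ⊔ span F {v e₁, v e₂}, w ∉ X ∧
      ∀ e ∈ M.E, ∀ c : F, c ≠ 0 → v e - c • w ∉ X := by
  by_contra hcon
  push Not at hcon
  obtain ⟨w, hw, hwX, hwno⟩ := hno
  have key : ∀ u ∈ span F (v '' M.E), u ∈ X ∨ ∃ e ∈ M.E, ∃ c : F, c ≠ 0 ∧ v e - c • u ∈ X := by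
    intro u hu
    induction hu using Submodule.span_induction with
    | mem x hx =>
      obtain ⟨e, he, rfl⟩ := hx
      exact Or.inr ⟨e, he, 1, one_ne_zero, by simp⟩
    | zero => exact Or.inl (zero_mem _)
    | add x y _ _ hx hy =>
      rcases hx with hx | ⟨e₁, he₁, c₁, hc₁, h₁⟩
      · rcases hy with hy | ⟨e₂, he₂, c₂, hc₂, h₂⟩
        · exact Or.inl (add_mem hx hy)
        · refine Or.inr ⟨e₂, he₂, c₂, hc₂, ?_⟩
          have : v e₂ - c₂ • (x + y) = (v e₂ - c₂ • y) - c₂ • x := by
            rw [smul_add]; abel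
          rw [this]
          exact sub_mem h₂ (X.smul_mem _ hx)
      · rcases hy with hy | ⟨e₂, he₂, c₂, hc₂, h₂⟩
        · refine Or.inr ⟨e₁, he₁, c₁, hc₁, ?_⟩
          have : v e₁ - c₁ • (x + y) = (v e₁ - c₁ • x) - c₁ • y := by
            rw [smul_add]; abel
          rw [this]
          exact sub_mem h₁ (X.smul_mem _ hy)
        · by_cases hxy : x + y ∈ X
          · exact Or.inl hxy
          · right
            refine hcon e₁ he₁ e₂ he₂ (x + y) ?_ hxy
            have hx' : x ∈ X ⊔ span F {v e₁, v e₂} := by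
              have h3 : x = c₁⁻¹ • (v e₁) - c₁⁻¹ • (v e₁ - c₁ • x) := by
                rw [smul_sub, smul_smul, inv_mul_cancel₀ hc₁, one_smul]; abel
              rw [h3]
              refine sub_mem (mem_sup_right ?_) (mem_sup_left (X.smul_mem _ h₁))
              exact Submodule.smul_mem _ _ (subset_span (by simp))
            have hy' : y ∈ X ⊔ span F {v e₁, v e₂} := by
              have h3 : y = c₂⁻¹ • (v e₂) - c₂⁻¹ • (v e₂ - c₂ • y) := by
                rw [smul_sub, smul_smul, inv_mul_cancel₀ hc₂, one_smul]; abel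
              rw [h3]
              refine sub_mem (mem_sup_right ?_) (mem_sup_left (X.smul_mem _ h₂))
              exact Submodule.smul_mem _ _ (subset_span (by simp))
            exact add_mem hx' hy'
    | smul a x _ hx =>
      rcases hx with hx | ⟨e₁, he₁, c₁, hc₁, h₁⟩
      · exact Or.inl (X.smul_mem _ hx)
      · by_cases ha : a = 0
        · left
          rw [ha, zero_smul]
          exact zero_mem _
        · refine Or.inr ⟨e₁, he₁, c₁ * a⁻¹, mul_ne_zero hc₁ (inv_ne_zero ha), ?_⟩
          rw [smul_smul, mul_assoc, inv_mul_cancel₀ ha, mul_one]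
          exact h₁
  rcases key w hw with h | ⟨e, he, c, hc, h⟩
  · exact hwX h
  · exact hwno e he c hc h

theorem adaptive [FiniteDimensional F V] {M : Matroid α} {v : α → V} (h : Rep F M v)
    (hsimple : ∀ e ∈ M.E, v e ≠ 0) {p : ℕ} (hno : ¬ HasProjectiveMinor F p M) (i : ℕ)
    (hi : 2 * i + p ≤ finrank F (span F (v '' M.E)) + 2) :
    ∃ A ⊆ M.E, finrank F (span F (v '' A)) ≤ 2 * i ∧ ∃ W ≤ span F (v '' A),
      i ≤ finrank F W ∧ ∀ e ∈ M.E, v e ∉ W := by
  induction i with
  | zero =>
    refine ⟨∅, empty_subset _, by simp, ⊥, bot_le, by simp, fun e he h0 => hsimple e he ?_⟩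
    simpa using h0
  | succ i ih =>
    obtain ⟨A, hA, hrA, W, hW, hiW, hWS⟩ := ih (by omega)
    have hex : ∃ w ∈ span F (v '' M.E), w ∉ span F (v '' A) ∧
        ∀ e ∈ M.E, ∀ c : F, c ≠ 0 → v e - c • w ∉ span F (v '' A) := by
      by_contra hcon
      push Not at hcon
      exact hno (pg_of_full h hA (by omega) hcon)
    obtain ⟨e₁, he₁, e₂, he₂, w, hw, hwX, hwS⟩ := exists_line (M := M) (v := v) _ hex
    have hspan : span F (v '' (A ∪ {e₁, e₂})) = span F (v '' A) ⊔ span F {v e₁, v e₂} := by
      rw [image_union, span_union, image_pair]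
    refine ⟨A ∪ {e₁, e₂}, union_subset hA ?_, ?_, W ⊔ span F {w}, ?_, ?_, ?_⟩
    · rintro x (rfl | rfl) <;> assumption
    · rw [hspan]
      have h1 : finrank F (span F ({v e₁, v e₂} : Set V)) ≤ 2 := by
        classical
        have h2 := finrank_span_finset_le_card (R := F) ({v e₁, v e₂} : Finset V)
        rw [Finset.coe_insert, Finset.coe_singleton] at h2
        exact h2.trans Finset.card_le_two
      have h3 := Submodule.finrank_add_le_finrank_add_finrank (span F (v '' A))
        (span F ({v e₁, v e₂} : Set V))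
      omega
    · rw [hspan]
      apply sup_le (hW.trans le_sup_left)
      rw [span_singleton_le_iff_mem]
      exact hw
    · have hlt : W < W ⊔ span F {w} := by
        refine lt_of_le_of_ne le_sup_left fun heq => hwX (hW ?_)
        rw [heq]
        exact mem_sup_right (mem_span_singleton_self w)
      have := Submodule.finrank_lt_finrank_of_lt hlt
      omega
    · intro e he hmem
      obtain ⟨y, hy, z, hz, hyz⟩ := mem_sup.1 hmem
      obtain ⟨c, rfl⟩ := mem_span_singleton.1 hz
      by_cases hc : c = 0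
      · rw [hc, zero_smul, add_zero] at hyz
        exact hWS e he (hyz ▸ hy)
      · apply hwS e he c hc
        rw [← hyz, add_sub_cancel_right]
        exact hW hy

/-- **Blocks of rank about `2k`.** A `k`-block over `F` of rank `r` with `r + p ≤ 2k + 2` has a
minor whose simplification is the projective geometry of rank `p` over `F`. -/
theorem adaptive_pg [Finite F] [FiniteDimensional F V] {M : Matroid α} [M.Finite]
    (hs : IsSimple M) {v : α → V} (h : Rep F M v) {k p : ℕ}
    (hk : (k : ℕ∞) < critExp M (Nat.card F)) (hrp : rk M M.E + p ≤ 2 * k + 2) :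
    HasProjectiveMinor F p M := by
  by_contra hno
  have hr := h.rk_eq (X := M.E) subset_rfl
  have hrk := block_rank hs h hk
  have hsimple : ∀ e ∈ M.E, v e ≠ 0 := by
    intro e he
    have h1 := hs e he e he
    rw [pair_eq_singleton, h _ (singleton_subset_iff.2 he)] at h1
    exact h1.ne_zero (mem_singleton e)
  obtain ⟨A, hA, hrA, W, hW, hiW, hWS⟩ := adaptive h hsimple hno (rk M M.E - k) (by
    rw [← hr]
    omega)
  obtain ⟨f, hf⟩ := extend_map (span F (v '' M.E)) W (k := k) (by
    rw [← hr]
    omega) (hW.trans (span_mono (image_mono hA)))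
  obtain ⟨e, he, hfe⟩ := (lt_critExp_iff h k).1 hk f
  exact hWS e he (hf (v e) (subset_span (mem_image_of_mem v he)) hfe)

end Pool.Agent.Helper335.Clique
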