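import Pool.Agent.Helper335.Clique.Chain

/-! # Quotients of complete graphs contain complete graphs -/

namespace Pool.Agent.Helper335.Clique

open Set Module Submodule Pool.Agent.Helper236 Pool.Agent.Helper335.ModHyp

variable {α : Type*} {F : Type*} [Field F] {n : ℕ}

/-- the star at `0` with end points in `U` -/
def star (U : Set (Fin (n + 1))) : Set (Sym2 (Fin (n + 1))) :=
  {s | ∃ i ∈ U, i ≠ 0 ∧ s = s(0, i)}

/-- the edges with both end points in `U ∪ {0}` -/
def within (U : Set (Fin (n + 1))) : Set (Sym2 (Fin (n + 1))) :=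
  {s | s ∈ edges (n + 1) ∧ ∀ i ∈ s, i = 0 ∨ i ∈ U}

theorem star_subset_edges (U : Set (Fin (n + 1))) : star U ⊆ edges (n + 1) := by
  rintro _ ⟨i, _, hi, rfl⟩
  simpa [edges] using hi.symm

theorem star_subset_within (U : Set (Fin (n + 1))) : star U ⊆ within U := by
  intro s hs
  refine ⟨star_subset_edges U hs, ?_⟩
  obtain ⟨i, hi, _, rfl⟩ := hs
  intro l hl
  rcases Sym2.mem_iff.1 hl with rfl | rfl
  · exact Or.inl rfl
  · exact Or.inr hi

theorem within_subset_closure (U : Set (Fin (n + 1))) :
    within U ⊆ (cyc F (n + 1)).closure (star U) := by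
  rintro s ⟨hs, hU⟩
  have hrep := linMatroid_rep (F := F) (diffVec (std F (n + 1))) (edges (n + 1)) (Set.toFinite _)
  rw [show (cyc F (n + 1)) = linMatroid F (diffVec (std F (n + 1))) (edges (n + 1))
    (Set.toFinite _) from rfl, hrep.mem_closure_iff (star_subset_edges U) hs]
  have key : ∀ i, (i = 0 ∨ i ∈ U) → std F (n + 1) 0 - std F (n + 1) i ∈
      span F (diffVec (std F (n + 1)) '' star U) := by
    intro i hi
    by_cases h0 : i = 0
    · rw [h0, sub_self]
      exact zero_mem _
    · have hiU : i ∈ U := by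
        rcases hi with h | h
        · exact absurd h h0
        · exact h
      rw [← diffVec_mem_iff]
      exact subset_span (mem_image_of_mem _ ⟨i, hiU, h0, rfl⟩)
  induction s with
  | _ i j =>
  rw [diffVec_mem_iff]
  have h1 := key i (hU i (Sym2.mem_mk_left _ _))
  have h2 := key j (hU j (Sym2.mem_mk_right _ _))
  have h3 := sub_mem h2 h1
  rwa [sub_sub_sub_cancel_left] at h3

theorem quot_closure {β : Type*} {N K : Matroid β} (hq : IsQuotient N K) (X : Set β) :
    K.closure X ⊆ N.closure X := by
  have h1 : K.IsFlat (N.closure X) := hq.2 _ (N.isFlat_closure X)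
  have h2 : K.closure (X ∩ K.E) ⊆ K.closure (N.closure X) := by
    apply K.closure_subset_closure
    rw [← hq.1]
    exact N.inter_ground_subset_closure X
  rw [K.closure_inter_ground, h1.closure] at h2
  exact h2

theorem quot_indep {β : Type*} {N K : Matroid β} (hq : IsQuotient N K) {J : Set β}
    (hJ : N.Indep J) : K.Indep J := by
  have hJN : J ⊆ N.E := hJ.subset_ground
  have hJK : J ⊆ K.E := hq.1 ▸ hJN
  rw [Matroid.indep_iff_forall_notMem_closure_sdiff hJK]
  rw [Matroid.indep_iff_forall_notMem_closure_sdiff hJN] at hJ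
  intro e he hmem
  exact hJ he (quot_closure hq _ hmem)

/-- Every quotient of rank `r` of the cycle matroid of a complete graph agrees with it on the
edges inside a set of `r + 1` vertices. -/
theorem quot_agree {N : Matroid (Sym2 (Fin (n + 1)))} (hq : IsQuotient N (cyc F (n + 1))) :
    ∃ U : Set (Fin (n + 1)), 0 ∉ U ∧ N.IsBase (star U) ∧
      ∀ J ⊆ within U, (N.Indep J ↔ (cyc F (n + 1)).Indep J) := by
  have hE : N.E = edges (n + 1) := hq.1
  have hspan : N.Spanning (star univ) := by
    rw [Matroid.spanning_iff_ground_subset_closure (by rw [hE]; exact star_subset_edges _)]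
    refine Subset.trans ?_ (quot_closure hq _)
    refine Subset.trans ?_ (within_subset_closure univ)
    intro s hs
    rw [hE] at hs
    exact ⟨hs, fun i _ => Or.inr (mem_univ i)⟩
  obtain ⟨I, hI, hIs⟩ := hspan.exists_isBase_subset
  let U : Set (Fin (n + 1)) := {i | i ≠ 0 ∧ s(0, i) ∈ I}
  have hIU : star U = I := by
    ext s
    constructor
    · rintro ⟨i, hi, _, rfl⟩
      exact hi.2
    · intro hs
      obtain ⟨i, _, hi0, rfl⟩ := hIs hs
      exact ⟨i, ⟨hi0, hs⟩, hi0, rfl⟩
  refine ⟨U, fun h => h.1 rfl, hIU ▸ hI, fun J hJ => ⟨quot_indep hq, fun hKJ => ?_⟩⟩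
  have hWE : within U ⊆ (cyc F (n + 1)).E := fun s hs => hs.1
  obtain ⟨T, hT, hJT⟩ := hKJ.subset_isBasis_of_subset hJ hWE
  have hIK : (cyc F (n + 1)).Indep I := quot_indep hq hI.indep
  have hIW : I ⊆ within U := by
    rw [← hIU]
    exact star_subset_within U
  have hIb : (cyc F (n + 1)).IsBasis I (within U) := by
    apply hIK.isBasis_of_subset_of_subset_closure hIW
    conv_rhs => rw [← hIU]
    exact within_subset_closure U
  have hcard : T.encard = I.encard := hT.encard_eq_encard hIb
  have hTE : T ⊆ N.E := by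
    rw [hE]
    exact hT.subset.trans (fun s hs => hs.1)
  have hTspan : N.Spanning T := by
    rw [Matroid.spanning_iff_ground_subset_closure hTE]
    have h1 : I ⊆ N.closure T :=
      hIW.trans ((hT.subset_closure).trans (quot_closure hq _))
    have h2 : N.closure I ⊆ N.closure T := by
      rw [← N.closure_closure T]
      exact N.closure_subset_closure h1
    rwa [hI.closure_eq] at h2
  obtain ⟨B', hB', hB'T⟩ := hTspan.exists_isBase_subset
  have hTfin : T.Finite := Set.toFinite _
  have hBT : B' = T := by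
    apply (hTfin.subset hB'T).eq_of_subset_of_encard_le hB'T
    rw [hcard, hB'.encard_eq_encard_of_isBase hI]
  rw [← hBT] at hJT
  exact hB'.indep.subset hJT

/-- Every quotient of rank `≥ m - 1` of the cycle matroid of a complete graph contains the cycle
matroid of the complete graph on `m` vertices. -/
theorem quot_clique {N : Matroid (Sym2 (Fin (n + 1)))} (hq : IsQuotient N (cyc F (n + 1)))
    {m : ℕ} (hm : (m : ℕ∞) ≤ N.eRank + 1) :
    ∃ ψ : Sym2 (Fin m) → Sym2 (Fin (n + 1)), InjOn ψ (edges m) ∧ ψ '' edges m ⊆ N.E ∧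
      ∀ J ⊆ edges m, (N.Indep (ψ '' J) ↔ (cyc F m).Indep J) := by
  classical
  obtain ⟨U, h0U, hbase, hagree⟩ := quot_agree hq
  have hUfin : U.Finite := Set.toFinite _
  -- the star has as many edges as `U` has elements
  have hstar : star U = (fun i => s((0 : Fin (n + 1)), i)) '' U := by
    ext s
    constructor
    · rintro ⟨i, hi, _, rfl⟩
      exact ⟨i, hi, rfl⟩
    · rintro ⟨i, hi, rfl⟩
      exact ⟨i, hi, fun h => h0U (h ▸ hi), rfl⟩
  have hcard : (star U).encard = U.encard := by
    rw [hstar]
    apply Set.InjOn.encard_image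
    intro i hi j hj hij
    have := Sym2.congr_right.1 hij
    exact this
  rw [← hbase.encard_eq_eRank, hcard] at hm
  let s : Finset (Fin (n + 1)) := (insert 0 U).toFinset
  have hs : m ≤ s.card := by
    have h1 : (s.card : ℕ∞) = U.encard + 1 := by
      rw [← Set.encard_insert_of_notMem h0U, ← Set.encard_coe_eq_coe_finsetCard]
      simp [s]
    rw [← h1] at hm
    exact_mod_cast hm
  let ι : Fin m ↪o Fin (n + 1) := s.orderEmbOfCardLe hs
  have hι : ∀ l, ι l = 0 ∨ ι l ∈ U := by
    intro l
    have := s.orderEmbOfCardLe_mem hs l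
    exact Set.mem_insert_iff.1 (Set.mem_toFinset.1 this)
  let ψ : Sym2 (Fin m) → Sym2 (Fin (n + 1)) := Sym2.map ι
  have hψw : ψ '' edges m ⊆ within U := by
    rintro _ ⟨e, he, rfl⟩
    induction e with
    | _ i j =>
    have hij : i ≠ j := by simpa [edges] using he
    refine ⟨?_, ?_⟩
    · have : ι i ≠ ι j := fun h => hij (ι.injective h)
      simpa [edges, ψ] using this
    · intro l hl
      have : l = ι i ∨ l = ι j := by simpa [ψ] using hl
      rcases this with rfl | rfl
      · exact hι i
      · exact hι j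
  have hdiff : ∀ e : Sym2 (Fin m), ∃ c : F, c ≠ 0 ∧ diffVec (std F (n + 1)) (ψ e) =
      c • diffVec (fun l => std F (n + 1) (ι l)) e := by
    intro e
    have h1 : ψ e = s(ι (Quot.out e).1, ι (Quot.out e).2) := by
      conv_lhs => rw [← out_eq e]
      rfl
    rcases diffVec_mk (std F (n + 1)) (ι (Quot.out e).1) (ι (Quot.out e).2) with h2 | h2
    · refine ⟨1, one_ne_zero, ?_⟩
      rw [h1, h2, one_smul]
      rfl
    · refine ⟨-1, neg_ne_zero.2 one_ne_zero, ?_⟩
      rw [h1, h2, neg_one_smul]
      simp [diffVec]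
  choose c hc0 hc using hdiff
  obtain ⟨hinj, hkey⟩ := clique_core (F := F) (u := diffVec (std F (n + 1)))
    (fun l => std F (n + 1) (ι l)) (by
      intro x _ hx
      funext l
      have h1 := congrFun hx (ι l)
      rw [Fintype.linearCombination_apply, Finset.sum_apply] at h1
      rw [Finset.sum_eq_single l] at h1
      · simpa [std] using h1
      · intro l' _ hl'
        have : ι l ≠ ι l' := fun h => hl' (ι.injective h.symm)
        simp [std, Pi.single_eq_of_ne this]
      · simp) ψ c (fun s _ => hc0 s) (fun s _ => hc s)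
  refine ⟨ψ, hinj, ?_, ?_⟩
  · rw [hq.1]
    exact hψw.trans (fun s hs => hs.1)
  · intro J hJ
    have hJw : ψ '' J ⊆ within U := (image_mono hJ).trans hψw
    rw [hagree _ hJw]
    have h1 : (cyc F (n + 1)).Indep (ψ '' J) ↔
        LinearIndepOn F (diffVec (std F (n + 1))) (ψ '' J) :=
      linMatroid_rep (F := F) (diffVec (std F (n + 1))) (edges (n + 1)) (Set.toFinite _) _
        (hJw.trans (fun s hs => hs.1))
    have h2 : (cyc F m).Indep J ↔ LinearIndepOn F (diffVec (std F m)) J :=
      linMatroid_rep (F := F) (diffVec (std F m)) (edges m) (Set.toFinite _) _ hJ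
    rw [h1, h2, hkey J hJ]

end Pool.Agent.Helper335.Clique
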