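import Pool.Agent.Helper335.Clique.Quot

/-! # Normal matroids and normal blocks contain complete graphs -/

namespace Pool.Agent.Helper335.Clique

open Set Module Submodule Pool.Agent.Helper236 Pool.Agent.Helper335.ModHyp

variable {α : Type*}

/-- `M` has a restriction isomorphic to the cycle matroid of the complete graph on `m` vertices. -/
def HasCliqueRestriction (m : ℕ) (M : Matroid α) : Prop :=
  ∃ (K : Matroid (Sym2 (Fin m))) (Y : Set α),
    IsCompleteGraphMatroid m K ∧ Y ⊆ M.E ∧ Iso K (M.restrict Y)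

theorem HasCliqueRestriction.minor {m : ℕ} {M : Matroid α} (h : HasCliqueRestriction m M) :
    HasCliqueMinor m M := by
  obtain ⟨K, Y, h1, h2, h3⟩ := h
  exact ⟨K, M.restrict Y, h1, restrict_isMinor h2, h3⟩

theorem HasCliqueRestriction.of_restrict {m : ℕ} {M : Matroid α} {Y : Set α} (hY : Y ⊆ M.E)
    (h : HasCliqueRestriction m (M.restrict Y)) : HasCliqueRestriction m M := by
  obtain ⟨K, Z, h1, h2, h3⟩ := h
  rw [Matroid.restrict_ground_eq] at h2
  rw [Matroid.restrict_restrict_eq _ h2] at h3
  exact ⟨K, Z, h1, h2.trans hY, h3⟩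

/-- Replacing elements by parallel elements. -/
theorem parallel_replace {β : Type*} {N : Matroid β} {Y : Set β} (hY : Y ⊆ N.E) (ρ : β → β)
    (hρ : ∀ e ∈ Y, N.IsNonloop (ρ e) ∧ (ρ e = e ∨ ¬ N.Indep {ρ e, e}))
    (hnl : ∀ e ∈ Y, N.IsNonloop e) (hpair : ∀ e ∈ Y, ∀ f ∈ Y, e ≠ f → N.Indep {e, f}) :
    InjOn ρ Y ∧ ∀ J ⊆ Y, (N.Indep (ρ '' J) ↔ N.Indep J) := by
  have hcl : ∀ e ∈ Y, N.closure {ρ e} = N.closure {e} := by
    intro e he
    rcases (hρ e he).2 with h | h
    · rw [h]
    · have h1 : e ∈ N.closure {ρ e} := by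
        rw [(hρ e he).1.indep.mem_closure_iff' ]
        refine ⟨hY he, fun h2 => ?_⟩
        rw [Set.pair_comm] at h
        exact absurd h2 h
      exact ((hnl e he).closure_eq_of_mem_closure h1).symm
  have hinj : InjOn ρ Y := by
    intro e he f hf hef
    by_contra hne
    have h1 := hpair e he f hf hne
    have h2 : e ∈ N.closure {f} := by
      rw [← hcl f hf, ← hef, hcl e he]
      exact N.mem_closure_of_mem rfl (singleton_subset_iff.2 (hY he))
    rw [(hnl f hf).indep.mem_closure_iff'] at h2
    exact hne (mem_singleton_iff.1 (h2.2 h1))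
  have himg : ∀ J ⊆ Y, N.closure (ρ '' J) = N.closure J := by
    intro J hJ
    have h1 : N.closure (⋃ e ∈ J, N.closure {ρ e}) = N.closure (⋃ e ∈ J, N.closure {e}) := by
      congr 1
      exact iUnion₂_congr (fun e he => hcl e (hJ he))
    rw [N.closure_biUnion_closure_eq_closure_biUnion, N.closure_biUnion_closure_eq_closure_biUnion]
      at h1
    have h2 : (⋃ e ∈ J, ({ρ e} : Set β)) = ρ '' J := by
      rw [← image_eq_iUnion]
    have h3 : (⋃ e ∈ J, ({e} : Set β)) = J := by simp
    rwa [h2, h3] at h1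
  refine ⟨hinj, fun J hJ => ?_⟩
  have hρE : ρ '' J ⊆ N.E := by
    rintro _ ⟨e, he, rfl⟩
    exact (hρ e (hJ he)).1.mem_ground
  rw [Matroid.indep_iff_forall_notMem_closure_sdiff hρE,
    Matroid.indep_iff_forall_notMem_closure_sdiff (hJ.trans hY)]
  have hstep : ∀ e ∈ J, (ρ e ∈ N.closure (ρ '' J \ {ρ e}) ↔ e ∈ N.closure (J \ {e})) := by
    intro e he
    have h1 : ρ '' J \ {ρ e} = ρ '' (J \ {e}) := by
      rw [(hinj.mono hJ).image_sdiff_subset (singleton_subset_iff.2 he), image_singleton]
    rw [h1, himg _ (sdiff_subset.trans hJ)]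
    have h2 : ∀ X, (ρ e ∈ N.closure X ↔ N.closure {ρ e} ⊆ N.closure X) := by
      intro X
      constructor
      · intro h
        rw [← N.closure_closure X]
        exact N.closure_subset_closure (singleton_subset_iff.2 h)
      · intro h
        exact h (N.mem_closure_of_mem rfl (singleton_subset_iff.2 (hρ e (hJ he)).1.mem_ground))
    have h3 : ∀ X, (e ∈ N.closure X ↔ N.closure {e} ⊆ N.closure X) := by
      intro X
      constructor
      · intro h
        rw [← N.closure_closure X]
        exact N.closure_subset_closure (singleton_subset_iff.2 h)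
      · intro h
        exact h (N.mem_closure_of_mem rfl (singleton_subset_iff.2 (hY (hJ he))))
    rw [h2, h3, hcl e (hJ he)]
  constructor
  · intro h e he hmem
    exact h (mem_image_of_mem ρ he) ((hstep e he).2 hmem)
  · rintro h _ ⟨e, he, rfl⟩ hmem
    exact h he ((hstep e he).1 hmem)

theorem cyc_pair (F : Type*) [Field F] {m : ℕ} {s s' : Sym2 (Fin m)} (hs : s ∈ edges m)
    (hs' : s' ∈ edges m) : (cyc F m).Indep {s, s'} := by
  have hsub : ({s, s'} : Set (Sym2 (Fin m))) ⊆ edges m := by
    rintro x (rfl | rfl) <;> assumption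
  have hd : ∀ s ∈ edges m, diffVec (std F m) s ≠ 0 := by
    intro s hs h0
    have h3 := diffVec_std_ne (F := F) s hs (Quot.out s).1
    rw [h0] at h3
    have h4 : (Quot.out s).1 ∈ s := by
      have h5 : (Quot.out s).1 ∈ s((Quot.out s).1, (Quot.out s).2) := Sym2.mem_mk_left _ _
      rwa [out_eq s] at h5
    exact (h3.2 h4) rfl
  have h1 : (cyc F m).Indep {s, s'} ↔ LinearIndepOn F (diffVec (std F m)) {s, s'} :=
    linMatroid_rep (F := F) (diffVec (std F m)) (edges m) (Set.toFinite _) _ hsub
  rw [h1]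
  by_cases heq : s = s'
  · subst heq
    rw [pair_eq_singleton]
    exact LinearIndepOn.singleton (hd s hs)
  · rw [LinearIndepOn.pair_iff _ heq]
    intro c c' hcc
    by_contra hcon
    have hne : c ≠ 0 ∨ c' ≠ 0 := by
      by_contra h
      push Not at h
      exact hcon h
    have hc : c ≠ 0 := by
      intro h0
      rw [h0, zero_smul, zero_add] at hcc
      rcases hne with h | h
      · exact h h0
      · rcases smul_eq_zero.1 hcc with h2 | h2
        · exact h h2
        · exact hd s' hs' h2
    have hc' : c' ≠ 0 := by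
      intro h0
      rw [h0, zero_smul, add_zero] at hcc
      rcases smul_eq_zero.1 hcc with h2 | h2
      · exact hc h2
      · exact hd s hs h2
    apply heq
    apply sym2_eq_of_scaled (F := F) hs hs' hc (neg_ne_zero.2 hc')
    rw [neg_smul]
    exact eq_neg_of_add_eq_zero_left hcc

end Pool.Agent.Helper335.Clique
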