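import Pool.Agent.Helper335.Clique.Normal

/-! # Complete graphs in supersolvable blocks and in blocks with a modular hyperplane -/

namespace Pool.Agent.Helper335.Clique

open Set Module Polynomial Pool.Agent.Helper236 Pool.Agent.Helper335.ModHyp

variable {α : Type*}

theorem supersolvable_block {F : Type} [Field F] [Finite F] (M : Matroid α) [M.Finite]
    (hs : IsSimple M) (hrep : Representable F M) (hG : ∃ G, IsModularChain M G) {k : ℕ}
    (hk : (k : ℕ∞) < critExp M (Nat.card F)) : HasCliqueRestriction (k + 2) M := by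
  obtain ⟨n, v, hv⟩ := exists_rep hrep
  obtain ⟨G, hG⟩ := hG
  have h1 := (block_iff hv k).1 hk
  have hm : 1 ≤ (Nat.card F) ^ k := Nat.one_le_pow _ _ Nat.card_pos
  have h2 : Polynomial.aeval ((((Nat.card F) ^ k : ℕ) : ℝ)) (charPoly M) ≤ 0 := by
    have h3 := Polynomial.aeval_algebraMap_apply ℝ ((((Nat.card F) ^ k : ℕ) : ℤ)) (charPoly M)
    have h4 : algebraMap ℤ ℝ ((((Nat.card F) ^ k : ℕ) : ℤ)) =
        ((((Nat.card F) ^ k : ℕ) : ℝ)) := by
      simp
    rw [h4] at h3
    rw [h3]
    have h5 : Polynomial.aeval ((((Nat.card F) ^ k : ℕ) : ℤ)) (charPoly M) = 0 := by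
      rw [Polynomial.coe_aeval_eq_eval]
      exact h1
    rw [h5]
    simp
  obtain ⟨Y, hYE, hY1, hY2, hY3⟩ := chain_restriction_of_real M hs hG hm le_rfl h2
  have hfinY : (M.restrict Y).Finite := ⟨M.ground_finite.subset hYE⟩
  have hkY : (k : ℕ∞) < critExp (M.restrict Y) (Nat.card F) :=
    (block_iff (rep_restrict hv hYE) k).2 hY2
  exact (normal_block (isSimple_restrict hs hYE) (rep_restrict hv hYE) hkY hY1).of_restrict hYE

theorem modular_clique {F : Type} [Field F] [Finite F] (M : Matroid α) [M.Finite]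
    (hs : IsSimple M) (hrep : Representable F M) {k : ℕ}
    (hk : (k : ℕ∞) < critExp M (Nat.card F)) {H : Set α} (hH : IsModularHyperplane M H) :
    (k : ℕ∞) < critExp (M.restrict H) (Nat.card F) ∨ HasCliqueRestriction (k + 2) M := by
  obtain ⟨n, v, hv⟩ := exists_rep hrep
  rcases modular_block M hs hrep hk hH with h | ⟨-, Y, hYE, -, -, hY1, hY2⟩
  · exact Or.inl h
  · right
    have hfinY : (M.restrict Y).Finite := ⟨M.ground_finite.subset hYE⟩
    exact (normal_block (isSimple_restrict hs hYE) (rep_restrict hv hYE) hY2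
      ((normalAt_pow _ _ _).2 hY1)).of_restrict hYE

end Pool.Agent.Helper335.Clique
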